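import Pool.Agent.Q171.ETC.Main

/-!
# Equivariant zero divisors can beat the topological complexity of all fixed sets

The answer to Q1 of MP_26f563_gt is positive, already for `G = {1, -1}` acting freely on the
closed manifold `X = S¹ × S^{2m-1}` (reflection of the circle, antipodal map of the sphere) and
for Borel cohomology with `𝔽₂` coefficients: all fixed sets have `TC(X^K) ≤ 3`, while
`nil ker (Δ^* : H_G^*(X × X) → H_G^*(X)) ≥ 2m - 1`.

The zero divisor is the class `y` of degree one of the equivariant double cover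
`w² = z z̄'` of `X × X ∋ ((z, x), (z', x'))`; it is trivial on the diagonal, and it restricts to
the generator of `H^1(ℝP^{2m-1}; 𝔽₂)` on the orbit space of `{((1, x), (-1, x))} ≅ S^{2m-1}`.
-/

set_option autoImplicit false

namespace Pool.Agent.Results.MP_26f563_gt.BorelBeatsFixed

open Pool.Agent.Q171.ETC

theorem result (m : ℕ) (hm : 3 ≤ m) :
    (⨆ K : Subgroup ℤˣ, TC {x : Circ × Sph m // ∀ g ∈ K, g • x = x}) ≤ 3 ∧
    ((2 * m - 1 : ℕ) : ℕ∞) ≤ nilI ℤˣ (Circ × Sph m) ∧
    (⨆ K : Subgroup ℤˣ, TC {x : Circ × Sph m // ∀ g ∈ K, g • x = x}) <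
      nilI ℤˣ (Circ × Sph m) := by
  have h1 : (⨆ K : Subgroup ℤˣ, TC {x : Circ × Sph m // ∀ g ∈ K, g • x = x}) ≤ 3 :=
    iSup_le fun K => TC_le (TCle_fixed m K)
  have h2 : ((2 * m - 1 : ℕ) : ℕ∞) ≤ nilI ℤˣ (Circ × Sph m) :=
    le_nilI (nilGE m (2 * m - 1) (by omega))
  refine ⟨h1, h2, h1.trans_lt (lt_of_lt_of_le ?_ h2)⟩
  exact_mod_cast (show 3 < 2 * m - 1 by omega)

end Pool.Agent.Results.MP_26f563_gt.BorelBeatsFixed
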